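import Pool.Agent.Helper40.Riesz.Coarse

/-!
# Riesz energy on spheres: module GEOFLAT (packing of the sphere by small copies of the unit cube)
-/

set_option autoImplicit false
open MeasureTheory Set Filter Topology
open scoped ENNReal NNReal Pointwise

namespace Helper23.Riesz

namespace GeoFlat

variable {d : ℕ}

/-- the affine map `z ↦ c + m z` -/
def aff (c : R d) (m : ℝ) (z : R d) : R d := c + m • z

lemma continuous_aff (c : R d) (m : ℝ) : Continuous (aff c m) := by
  unfold aff; fun_prop

lemma aff_injective (c : R d) {m : ℝ} (hm : 0 < m) : Function.Injective (aff c m) := by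
  intro x y h
  unfold aff at h
  have h1 : m • x = m • y := add_left_cancel h
  exact smul_right_injective _ hm.ne' h1

lemma measurableEmbedding_aff (c : R d) {m : ℝ} (hm : 0 < m) : MeasurableEmbedding (aff c m) :=
  (continuous_aff c m).measurableEmbedding (aff_injective c hm)

lemma volume_image_aff (c : R d) {m : ℝ} (hm : 0 < m) (W : Set (R d)) :
    volume (aff c m '' W) = ENNReal.ofReal (m ^ d) * volume W := by
  have h1 : aff c m '' W = (fun x => c + x) '' (m • W) := by
    rw [← Set.image_smul, Set.image_image]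
    rfl
  rw [h1, Set.image_add_left, measure_preimage_add, Measure.addHaar_smul,
    finrank_euclideanSpace_fin, abs_of_pos (by positivity)]

lemma aff_mem_cubo {c : R d} {m b : ℝ} (hm : 0 < m) {z : R d} (hz : z ∈ cubo 0 b) :
    aff c m z ∈ cubo c (m * b) := by
  intro i
  have h := hz i
  have h0 : (0 : R d) i = 0 := rfl
  rw [h0, zero_add] at h
  have h1 : aff c m z i = c i + m * z i := rfl
  rw [h1]
  constructor
  · have := mul_nonneg hm.le h.1
    linarith
  · have := mul_lt_mul_of_pos_left h.2 hm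
    linarith

lemma dist_aff (c : R d) {m : ℝ} (hm : 0 < m) (z w : R d) :
    dist (aff c m z) (aff c m w) = m * dist z w := by
  unfold aff
  rw [dist_add_left, dist_smul₀, Real.norm_eq_abs, abs_of_pos hm]

lemma le_sig_Th (hd : 1 ≤ d) {W : Set (R d)} (hW : MeasurableSet W) {L : ℝ} (hL0 : 0 ≤ L)
    (hL : ∀ y ∈ W, L ≤ lam y) :
    ENNReal.ofReal (1 / omega d) * (ENNReal.ofReal (L ^ d) * volume W) ≤ sig d (Th '' W) := by
  rw [sig_Th hd W hW]
  gcongr
  calc ENNReal.ofReal (L ^ d) * volume W = ∫⁻ _y in W, ENNReal.ofReal (L ^ d) :=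
        (setLIntegral_const _ _).symm
    _ ≤ ∫⁻ y in W, ENNReal.ofReal (lam y ^ d) := by
        refine setLIntegral_mono (CoarseAux.measurable_lam_pow d) fun y hy => ?_
        exact ENNReal.ofReal_le_ofReal (pow_le_pow_left₀ hL0 (hL y hy) d)

/-- one small piece -/
theorem piece (hd : 1 ≤ d) {τ m L : ℝ} (_hτ : 0 < τ) (hm : 0 < m) (hL : 0 < L)
    (h2 : L * m = τ) (c : R d) (hlam : ∀ w ∈ cubo c m, L ≤ lam w)
    (A : Set (S d)) (hA : MeasurableSet A) :
    ENNReal.ofReal (τ ^ d / omega d) *
      (((volume : Measure (R d)).restrict (cubo 0 1)).map (fun z => Th (aff c m z))) A ≤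
      sig d (Th '' cubo c m ∩ A) := by
  have hω := omega_pos hd
  have hmeas : Measurable (fun z : R d => Th (aff c m z)) :=
    measurableEmbedding_Th.measurable.comp (continuous_aff c m).measurable
  rw [Measure.map_apply hmeas hA, Measure.restrict_apply (hmeas hA)]
  set W : Set (R d) := (fun z => Th (aff c m z)) ⁻¹' A ∩ cubo 0 1 with hWdef
  have hW : MeasurableSet W := (hmeas hA).inter (CoarseAux.measurableSet_cubo 0 1)
  have h1 : ∀ z ∈ cubo (0 : R d) 1, aff c m z ∈ cubo c m := by
    intro z hz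
    have := aff_mem_cubo (c := c) hm hz
    rwa [mul_one] at this
  have h4 : Th '' (aff c m '' W) ⊆ Th '' cubo c m ∩ A := by
    rintro x ⟨y, ⟨z, ⟨hz2, hz⟩, rfl⟩, rfl⟩
    exact ⟨⟨_, h1 z hz, rfl⟩, hz2⟩
  calc ENNReal.ofReal (τ ^ d / omega d) * volume W
      = ENNReal.ofReal (1 / omega d) * (ENNReal.ofReal (L ^ d) *
          (ENNReal.ofReal (m ^ d) * volume W)) := by
        have h5 : ENNReal.ofReal (τ ^ d / omega d) =
            ENNReal.ofReal (1 / omega d) * (ENNReal.ofReal (L ^ d) * ENNReal.ofReal (m ^ d)) := by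
          rw [← ENNReal.ofReal_mul (by positivity), ← ENNReal.ofReal_mul (by positivity),
            ← mul_pow, h2]
          congr 1
          ring
        rw [h5]
        ring
    _ = ENNReal.ofReal (1 / omega d) * (ENNReal.ofReal (L ^ d) * volume (aff c m '' W)) := by
        rw [volume_image_aff c hm]
    _ ≤ sig d (Th '' (aff c m '' W)) := by
        refine le_sig_Th hd ((measurableEmbedding_aff c hm).measurableSet_image.2 hW) hL.le ?_
        rintro _ ⟨z, ⟨-, hz⟩, rfl⟩
        exact hlam _ (h1 z hz)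
    _ ≤ sig d (Th '' cubo c m ∩ A) := measure_mono h4

lemma cubo_corner_subset {c : R d} {h s : ℝ} {N : ℕ} (hh : 0 ≤ h) (hN : N * h ≤ s)
    (k : Fin d → Fin N) : cubo (CoarseAux.corner c h k) h ⊆ cubo c s := by
  intro y hy i
  have h1 := hy i
  rw [CoarseAux.corner_apply] at h1
  have h2 : ((k i : ℕ) : ℝ) + 1 ≤ N := by exact_mod_cast (k i).2
  have h3 : 0 ≤ h * ((k i : ℕ) : ℝ) := by positivity
  have h4 : h * (((k i : ℕ) : ℝ) + 1) ≤ h * N := mul_le_mul_of_nonneg_left h2 hh
  constructor
  · linarith [h1.1]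
  · nlinarith [h1.2]

end GeoFlat

open GeoFlat

/-- module GEOFLAT: packing of the sphere by small similar copies of the unit cube -/
theorem geo_flat {d : ℕ} (hd : 1 ≤ d) (ε : ℝ) (hε : 0 < ε) : ∃ τ₀ : ℝ, 0 < τ₀ ∧
    ∀ τ : ℝ, 0 < τ → τ < τ₀ → ∃ (n : ℕ) (T : Fin n → R d → S d), (∀ k, Measurable (T k)) ∧
      (∀ k, ∀ x ∈ cubo (0 : R d) 1, ∀ y ∈ cubo (0 : R d) 1, τ * dist x y ≤ dist (T k x) (T k y) ∧
        dist (T k x) (T k y) ≤ (1 + ε) * τ * dist x y) ∧
      (∑ k, ENNReal.ofReal (τ ^ d / omega d) •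
        (((volume : Measure (R d)).restrict (cubo 0 1)).map (T k)) ≤ sig d) ∧
      1 - ε ≤ n * (τ ^ d / omega d) := by
  have hω := omega_pos hd
  have hd1 : (1:ℝ) ≤ d := by exact_mod_cast hd
  -- the accuracy of the coarse decomposition
  set η : ℝ := min (1 / 2) (ε / (2 * (d + 1))) with hηdef
  have hη0 : 0 < η := lt_min (by norm_num) (by positivity)
  have hη1 : η ≤ 1 / 2 := min_le_left _ _
  have hη2 : (d + 1) * η ≤ ε / 2 := by
    have h := min_le_right (1 / 2) (ε / (2 * ((d:ℝ) + 1)))
    rw [← hηdef, le_div_iff₀ (by positivity)] at h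
    linarith
  have hηε : η ≤ ε := by nlinarith
  obtain ⟨J, κ, y, l, hκ, hl, hlam, hdis, hsum, -, -⟩ :=
    CoarseAux.coarse1 hd η hη0 (by linarith)
  -- a positive lower bound for the `l j`
  obtain ⟨l0, hl0, hl0j⟩ : ∃ l0 : ℝ, 0 < l0 ∧ ∀ j, l0 ≤ l j := by
    rcases Nat.eq_zero_or_pos J with h | h
    · subst h
      exact ⟨1, one_pos, fun j => j.elim0⟩
    · have : Nonempty (Fin J) := ⟨⟨0, h⟩⟩
      obtain ⟨j0, hj0⟩ := Finite.exists_min l
      exact ⟨l j0, hl j0, hj0⟩
  refine ⟨η * κ * l0, by positivity, fun τ hτ hττ => ?_⟩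
  set m : Fin J → ℝ := fun j => τ / l j with hmdef
  have hmpos : ∀ j, 0 < m j := fun j => div_pos hτ (hl j)
  have hLm : ∀ j, l j * m j = τ := fun j => by
    simp only [hmdef]
    rw [mul_div_cancel₀ _ (hl j).ne']
  have hmb : ∀ j, m j ≤ η * κ := by
    intro j
    simp only [hmdef]
    rw [div_le_iff₀ (hl j)]
    have : η * κ * l0 ≤ η * κ * l j := by
      have := hl0j j
      gcongr
    linarith
  set N : Fin J → ℕ := fun j => ⌊κ / m j⌋₊ with hNdef
  have hN1 : ∀ j, (N j : ℝ) * m j ≤ κ := by
    intro j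
    have := Nat.floor_le (div_nonneg hκ.le (hmpos j).le)
    rwa [le_div_iff₀ (hmpos j)] at this
  have hN2 : ∀ j, (1 - η) * κ ≤ (N j : ℝ) * m j := by
    intro j
    have := Nat.lt_floor_add_one (κ / m j)
    rw [div_lt_iff₀ (hmpos j)] at this
    have h2 := hmb j
    change κ < ((N j : ℝ) + 1) * m j at this
    linarith
  let I : Type := Σ j : Fin J, (Fin d → Fin (N j))
  let corn : I → R d := fun x => CoarseAux.corner (y x.1) (m x.1) x.2
  have hsub : ∀ x : I, cubo (corn x) (m x.1) ⊆ cubo (y x.1) κ := fun x =>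
    cubo_corner_subset (hmpos x.1).le (hN1 x.1) x.2
  have hdisj : ∀ x x' : I, x ≠ x' → Disjoint (cubo (corn x) (m x.1)) (cubo (corn x') (m x'.1)) := by
    rintro ⟨j, k⟩ ⟨j', k'⟩ hne
    by_cases hj : j = j'
    · subst hj
      have hk : k ≠ k' := fun h => hne (by rw [h])
      exact CoarseAux.cubo_corner_disjoint (hmpos j) hk
    · exact (hdis j j' hj).mono (hsub ⟨j, k⟩) (hsub ⟨j', k'⟩)
  have h1 : ∀ (x : I), ∀ z ∈ cubo (0 : R d) 1, aff (corn x) (m x.1) z ∈ cubo (corn x) (m x.1) := by
    intro x z hz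
    have := aff_mem_cubo (c := corn x) (hmpos x.1) hz
    rwa [mul_one] at this
  let e := Fintype.equivFin I
  refine ⟨Fintype.card I, fun k z => Th (aff (corn (e.symm k)) (m (e.symm k).1) z), ?_, ?_, ?_, ?_⟩
  · intro k
    exact measurableEmbedding_Th.measurable.comp (continuous_aff _ _).measurable
  · intro k v hv w hw
    set x := e.symm k with hx
    have hv1 := CoarseAux.cubo_subset_cube _ _ (hsub x (h1 x v hv))
    have hw1 := CoarseAux.cubo_subset_cube _ _ (hsub x (h1 x w hw))
    have hb := CoarseAux.dist_bounds (hl x.1) hη0.le (hlam x.1 _ hv1).1 (hlam x.1 _ hv1).2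
      (hlam x.1 _ hw1).1 (hlam x.1 _ hw1).2
    rw [dist_aff _ (hmpos x.1)] at hb
    have e1 : l x.1 * (m x.1 * dist v w) = τ * dist v w := by rw [← mul_assoc, hLm]
    have e2 : (1 + η) * l x.1 * (m x.1 * dist v w) = (1 + η) * τ * dist v w := by
      rw [← mul_assoc, mul_assoc (1 + η), hLm]
    rw [e1, e2] at hb
    refine ⟨hb.1, hb.2.trans ?_⟩
    have := dist_nonneg (x := v) (y := w)
    gcongr
  · rw [Measure.le_iff]
    intro A hA
    rw [Measure.finsetSum_apply]
    calc ∑ k, (ENNReal.ofReal (τ ^ d / omega d) • ((volume : Measure (R d)).restrict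
            (cubo 0 1)).map (fun z => Th (aff (corn (e.symm k)) (m (e.symm k).1) z))) A
        = ∑ x : I, (ENNReal.ofReal (τ ^ d / omega d) • ((volume : Measure (R d)).restrict
            (cubo 0 1)).map (fun z => Th (aff (corn x) (m x.1) z))) A :=
          Equiv.sum_comp e.symm (fun x => (ENNReal.ofReal (τ ^ d / omega d) •
            ((volume : Measure (R d)).restrict (cubo 0 1)).map
              (fun z => Th (aff (corn x) (m x.1) z))) A)
      _ ≤ ∑ x : I, ((sig d).restrict A) (Th '' cubo (corn x) (m x.1)) := by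
          refine Finset.sum_le_sum fun x _ => ?_
          rw [Measure.smul_apply, smul_eq_mul, Measure.restrict_apply
            (measurableEmbedding_Th.measurableSet_image.2 (CoarseAux.measurableSet_cubo _ _))]
          exact piece hd hτ (hmpos _) (hl _) (hLm _) (corn x)
            (fun w hw => (hlam _ w (CoarseAux.cubo_subset_cube _ _ (hsub x hw))).1) A hA
      _ ≤ ((sig d).restrict A) Set.univ := by
          apply sum_measure_le_measure_univ
          · intro x _
            exact (measurableEmbedding_Th.measurableSet_image.2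
              (CoarseAux.measurableSet_cubo _ _)).nullMeasurableSet
          · intro x _ x' _ hxx'
            exact ((Set.disjoint_image_iff injective_Th).2 (hdisj x x' hxx')).aedisjoint
      _ = sig d A := by rw [Measure.restrict_apply_univ]
  · have hcard : (Fintype.card I : ℝ) = ∑ j, (N j : ℝ) ^ d := by
      have : Fintype.card I = ∑ j, (N j) ^ d := by
        simp only [I, Fintype.card_sigma, Fintype.card_pi, Fintype.card_fin, Finset.prod_const,
          Finset.card_univ]
      rw [this]; push_cast; rfl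
    rw [hcard]
    have hη3 : 0 ≤ 1 - η := by linarith
    have key : ∀ j, (1 / omega d) * ((1 - η) ^ d * (l j * κ) ^ d) ≤
        (N j : ℝ) ^ d * (τ ^ d / omega d) := by
      intro j
      have h2 : (N j : ℝ) ^ d * (τ ^ d / omega d) = (1 / omega d) * (l j * (N j * m j)) ^ d := by
        have : l j * (N j * m j) = N j * τ := by
          calc _ = N j * (l j * m j) := by ring
            _ = _ := by rw [hLm]
        rw [this, mul_pow]; ring
      rw [h2, ← mul_pow]
      have hlj := hl j
      have h3 := hN2 j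
      apply mul_le_mul_of_nonneg_left _ (by positivity)
      apply pow_le_pow_left₀ (by positivity)
      calc (1 - η) * (l j * κ) = l j * ((1 - η) * κ) := by ring
        _ ≤ l j * (N j * m j) := by gcongr
    calc 1 - ε ≤ (1 - η) ^ (d + 1) := by
          have h := one_add_mul_le_pow (show (-2:ℝ) ≤ -η by linarith) (d + 1)
          push_cast at h
          have e1 : (1:ℝ) + -η = 1 - η := by ring
          rw [e1] at h
          nlinarith
      _ = (1 - η) ^ d * ((1 / omega d) * ((1 - η) * omega d)) := by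
          rw [pow_succ]; field_simp
      _ ≤ (1 - η) ^ d * ((1 / omega d) * ∑ j, (l j * κ) ^ d) := by gcongr
      _ = ∑ j, (1 / omega d) * ((1 - η) ^ d * (l j * κ) ^ d) := by
          rw [Finset.mul_sum, Finset.mul_sum]
          refine Finset.sum_congr rfl fun j _ => by ring
      _ ≤ ∑ j, (N j : ℝ) ^ d * (τ ^ d / omega d) := Finset.sum_le_sum fun j _ => key j
      _ = (∑ j, (N j : ℝ) ^ d) * (τ ^ d / omega d) := by rw [Finset.sum_mul]

end Helper23.Riesz
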